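import Pool.Agent.helper59.PT.Spec

set_option linter.all false
set_option autoImplicit false

/-!
# pt:RP, positivity of the ring under the reflection (MP_2dd521_co)
-/

namespace Pool.Agent.helper94.PT

open MvPolynomial Pool.Agent.helper59.PT
open scoped ComplexConjugate ComplexOrder

variable {ι : Type}

/-- contractions inside the half -/
def wc (c : Fin 3 → ℝ) : Fin 3 → Fin 3 → ℝ := ![![0, 0, c 1], ![0, 0, c 0], ![c 1, c 0, 0]]

/-- the enumeration of the variables -/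
def gg : (Fin 3 × ι) ⊕ (Fin 3 × ι) → Sl × ι
  | Sum.inl v => (ltS v.1, v.2)
  | Sum.inr v => (thS (ltS v.1), v.2)

theorem gg_inj : Function.Injective (gg : (Fin 3 × ι) ⊕ (Fin 3 × ι) → Sl × ι) := by
  have h : ∀ (i j : Fin 3), (ltS i = ltS j → i = j) ∧ (thS (ltS i) = thS (ltS j) → i = j) ∧
      ltS i ≠ thS (ltS j) := by decide
  rintro (⟨i, a⟩ | ⟨i, a⟩) (⟨j, b⟩ | ⟨j, b⟩) hh
  · simp only [gg, Prod.mk.injEq] at hh
    rw [(h i j).1 hh.1, hh.2]
  · simp only [gg, Prod.mk.injEq] at hh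
    exact absurd hh.1 (h i j).2.2
  · simp only [gg, Prod.mk.injEq] at hh
    exact absurd hh.1.symm (h j i).2.2
  · simp only [gg, Prod.mk.injEq] at hh
    rw [(h i j).2.1 hh.1, hh.2]

theorem gg_surj : Function.Surjective (gg : (Fin 3 × ι) ⊕ (Fin 3 × ι) → Sl × ι) := by
  have h : ∀ s : Sl, (∃ i, ltS i = s) ∨ ∃ i, thS (ltS i) = s := by decide
  rintro ⟨s, a⟩
  rcases h s with ⟨i, hi⟩ | ⟨i, hi⟩
  · exact ⟨Sum.inl (i, a), by simp [gg, hi]⟩
  · exact ⟨Sum.inr (i, a), by simp [gg, hi]⟩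

/-- the factor of the matrix of contractions -/
noncomputable def fa (c : Fin 3 → ℝ) : Fin 3 → Fin 3 → ℝ :=
  ![![Real.sqrt (c 0), c 2 / Real.sqrt (c 0), 0],
    ![0, Real.sqrt (c 1 - c 2 ^ 2 / c 0), 0], ![0, 0, Real.sqrt (c 2)]]

theorem fa_mul (c : Fin 3 → ℝ) (hc : Adm c) (i j : Fin 3) :
    ∑ k, fa c k i * fa c k j = Mc c i j := by
  obtain ⟨h0, h1⟩ := hc
  have e0 : Real.sqrt (c 0) * Real.sqrt (c 0) = c 0 := Real.mul_self_sqrt (h0 0)
  have e2 : Real.sqrt (c 2) * Real.sqrt (c 2) = c 2 := Real.mul_self_sqrt (h0 2)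
  have hcase : c 0 = 0 → c 2 = 0 := by
    intro h
    rw [h, zero_mul] at h1
    exact pow_eq_zero_iff (two_ne_zero) |>.1 (le_antisymm h1 (sq_nonneg _))
  have hn : 0 ≤ c 1 - c 2 ^ 2 / c 0 := by
    rcases (h0 0).lt_or_eq with h | h
    · have : c 2 ^ 2 / c 0 ≤ c 1 := by
        rw [div_le_iff₀ h]; linarith [mul_comm (c 0) (c 1)]
      linarith
    · rw [← h]; simpa using h0 1
  have e1 : Real.sqrt (c 1 - c 2 ^ 2 / c 0) * Real.sqrt (c 1 - c 2 ^ 2 / c 0) =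
      c 1 - c 2 ^ 2 / c 0 := Real.mul_self_sqrt hn
  have e01 : Real.sqrt (c 0) * (c 2 / Real.sqrt (c 0)) = c 2 := by
    rcases (h0 0).lt_or_eq with h | h
    · have : Real.sqrt (c 0) ≠ 0 := (Real.sqrt_pos.2 h).ne'
      field_simp
    · rw [hcase h.symm]; simp
  have e10 : (c 2 / Real.sqrt (c 0)) * Real.sqrt (c 0) = c 2 := by rw [mul_comm]; exact e01
  have e11 : (c 2 / Real.sqrt (c 0)) * (c 2 / Real.sqrt (c 0)) = c 2 ^ 2 / c 0 := by
    rw [div_mul_div_comm, e0]; ring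
  fin_cases i <;> fin_cases j <;>
    simp [fa, Mc, Fin.sum_univ_three, e0, e1, e2, e01, e10, e11]

section

variable [Fintype ι] [DecidableEq ι]

/-- the matrix of contractions with coordinates -/
noncomputable def MM (c : Fin 3 → ℝ) : Matrix (Fin 3 × ι) (Fin 3 × ι) ℂ :=
  Matrix.of fun v w => if v.2 = w.2 then ((Mc c v.1 w.1 : ℝ) : ℂ) else 0

theorem MM_psd (c : Fin 3 → ℝ) (hc : Adm c) : (MM c : Matrix (Fin 3 × ι) (Fin 3 × ι) ℂ).PosSemidef := by
  let A : Matrix (Fin 3 × ι) (Fin 3 × ι) ℂ :=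
    Matrix.of fun v w => if v.2 = w.2 then ((fa c v.1 w.1 : ℝ) : ℂ) else 0
  have h : (MM c : Matrix (Fin 3 × ι) (Fin 3 × ι) ℂ) = A.conjTranspose * A := by
    ext ⟨i, a⟩ ⟨j, b⟩
    simp only [MM, A, Matrix.mul_apply, Matrix.conjTranspose_apply, Matrix.of_apply,
      Fintype.sum_prod_type]
    rw [← fa_mul c hc i j]
    by_cases hab : a = b
    · subst hab
      simp [apply_ite, ite_mul, Finset.sum_ite_eq]
    · simp only [hab, if_false]
      symm
      refine Finset.sum_eq_zero fun k _ => Finset.sum_eq_zero fun d _ => ?_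
      by_cases h1 : d = a
      · subst h1; simp [hab]
      · simp [h1]
  rw [h]
  exact Matrix.posSemidef_conjTranspose_mul_self A

theorem cov (c : Fin 3 → ℝ) (v w : (Fin 3 × ι) ⊕ (Fin 3 × ι)) :
    KC c (gg v) (gg w) =
      KT (fun v w : Fin 3 × ι => if v.2 = w.2 then ((wc c v.1 w.1 : ℝ) : ℂ) else 0) (MM c) v w := by
  have q1 : (-1 : Fin 3) = 2 := by decide
  have q2 : (-2 : Fin 3) = 1 := by decide
  rcases v with ⟨i, a⟩ | ⟨i, a⟩ <;> rcases w with ⟨j, b⟩ | ⟨j, b⟩ <;>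
    fin_cases i <;> fin_cases j <;> by_cases hab : a = b <;>
    simp [gg, KC, KT, wc, MM, Mc, ltS, thS, circ, hab, eq_comm, q1, q2]

end

theorem rowRP (hTP : RowTP) : RowRP := by
  intro ι _ _ c hc L hL u
  let L' : MvPolynomial ((Fin 3 × ι) ⊕ (Fin 3 × ι)) ℂ →ₗ[ℂ] ℂ :=
    L.comp (rename (gg : (Fin 3 × ι) ⊕ (Fin 3 × ι) → Sl × ι)).toLinearMap
  have hG : IsG (KT (fun v w : Fin 3 × ι => if v.2 = w.2 then ((wc c v.1 w.1 : ℝ) : ℂ) else 0)
      (MM c)) L' := by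
    refine ⟨?_, ?_⟩
    · simp only [L', LinearMap.comp_apply, AlgHom.toLinearMap_apply, map_one]
      exact hL.one
    · intro v Q
      simp only [L', LinearMap.comp_apply, AlgHom.toLinearMap_apply, map_mul, rename_X]
      rw [hL.step]
      let e : (Fin 3 × ι) ⊕ (Fin 3 × ι) ≃ Sl × ι := Equiv.ofBijective gg ⟨gg_inj, gg_surj⟩
      rw [← e.sum_comp]
      refine Finset.sum_congr rfl fun w _ => ?_
      have he : e w = gg w := rfl
      rw [he, cov, pderiv_rename gg_inj]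
  have hW : ∀ v w : Fin 3 × ι, (if v.2 = w.2 then ((wc c v.1 w.1 : ℝ) : ℂ) else 0) =
      if w.2 = v.2 then ((wc c w.1 v.1 : ℝ) : ℂ) else 0 := by
    rintro ⟨i, a⟩ ⟨j, b⟩
    by_cases hab : a = b
    · subst hab
      fin_cases i <;> fin_cases j <;> simp [wc]
    · simp [hab, Ne.symm hab, eq_comm]
  have key := hTP (Fin 3 × ι) (fun v w : Fin 3 × ι => if v.2 = w.2 then ((wc c v.1 w.1 : ℝ) : ℂ) else 0)
    (MM c) hW (MM_psd c hc) L' hG u
  have e1 : L' (rename Sum.inl u * rename Sum.inr (map (starRingEnd ℂ) u)) =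
      L (rename (fun v : Fin 3 × ι => (ltS v.1, v.2)) u *
      rename (fun v : Fin 3 × ι => (thS (ltS v.1), v.2)) (cj u)) := by
    simp only [L', LinearMap.comp_apply, AlgHom.toLinearMap_apply, map_mul, rename_rename]
    rfl
  rw [e1] at key
  exact key

end Pool.Agent.helper94.PT
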