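import Pool.Agent.helper59.PT.Spec

set_option linter.all false
set_option autoImplicit false

/-!
# pt:TR, the trace inequality (MP_2dd521_co)
-/

namespace Pool.Agent.helper94.PT

open scoped ComplexConjugate ComplexOrder
open Matrix

section

variable {S : Type} [Fintype S] [DecidableEq S]

theorem herm_tr (H : Matrix S S ℂ) (hH : H.PosSemidef) :
    H.trace.re ^ 3 ≤ (Fintype.card S : ℝ) ^ 2 * ((H * H * H).trace).re ∧ 0 ≤ H.trace.re := by
  have h := hH.isHermitian
  set l := h.eigenvalues with hl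
  have hl0 : ∀ i, 0 ≤ l i := hH.eigenvalues_nonneg
  set U : Matrix S S ℂ := (h.eigenvectorUnitary : Matrix S S ℂ) with hU
  have hUU : star U * U = 1 := Unitary.coe_star_mul_self _
  set D : Matrix S S ℂ := diagonal (fun i => ((l i : ℝ) : ℂ)) with hD
  have hs : H = U * D * star U := by
    conv_lhs => rw [h.spectral_theorem]
    rfl
  have e1 : H.trace = ∑ i, ((l i : ℝ) : ℂ) := by
    rw [hs, Matrix.trace_mul_comm, ← mul_assoc, hUU, one_mul]
    simp [Matrix.trace, hD]
  have e3 : (H * H * H).trace = ∑ i, ((l i : ℝ) : ℂ) ^ 3 := by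
    have : H * H * H = U * (D * D * D) * star U := by
      rw [hs]
      calc U * D * star U * (U * D * star U) * (U * D * star U)
          = U * D * (star U * U) * D * (star U * U) * D * star U := by noncomm_ring
        _ = U * (D * D * D) * star U := by rw [hUU]; noncomm_ring
    rw [this, Matrix.trace_mul_comm, ← mul_assoc, hUU, one_mul]
    simp only [hD, Matrix.diagonal_mul_diagonal, Matrix.trace, Matrix.diag_diagonal]
    refine Finset.sum_congr rfl fun i _ => ?_
    ring
  have r1 : H.trace.re = ∑ i, l i := by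
    rw [e1, Complex.re_sum]; simp
  have r3 : (H * H * H).trace.re = ∑ i, l i ^ 3 := by
    rw [e3, Complex.re_sum]
    refine Finset.sum_congr rfl fun i _ => ?_
    rw [← Complex.ofReal_pow, Complex.ofReal_re]
  rw [r1, r3]
  refine ⟨?_, Finset.sum_nonneg fun i _ => hl0 i⟩
  have := pow_sum_le_card_mul_sum_pow (s := Finset.univ) (f := l) (fun i _ => hl0 i) 2
  simpa using this

end

theorem rowTR : Pool.Agent.helper59.PT.RowTR := by
  intro S _ _ X Y hX hY
  obtain ⟨A, hA⟩ := Pool.Agent.helper16.LSZ.exists_factor hX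
  have hH := hY.mul_mul_conjTranspose_same A
  have t1 : (X * Y).trace = (A * Y * Aᴴ).trace := by
    rw [hA, mul_assoc, Matrix.trace_mul_comm]
  have t3 : (X * Y * (X * Y) * (X * Y)).trace =
      ((A * Y * Aᴴ) * (A * Y * Aᴴ) * (A * Y * Aᴴ)).trace := by
    rw [hA]
    have : Aᴴ * A * Y * (Aᴴ * A * Y) * (Aᴴ * A * Y) =
      Aᴴ * (A * Y * Aᴴ * (A * Y * Aᴴ) * A * Y) := by noncomm_ring
    rw [this, Matrix.trace_mul_comm]
    congr 1
    noncomm_ring
  rw [t1, t3]
  exact herm_tr _ hH

end Pool.Agent.helper94.PT
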